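import Pool.Agent.Helper58.DG.Goals

/-!
# Project DG (MP_06d934_gt), packet K_DET (helper85)
-/

set_option autoImplicit false

namespace Pool.Agent.Helper85.DG

open Pool.Agent.Helper58.DG

theorem pa_diff (ν : Fin 4 → ℝ) (x : Fin 6 → ℝ) : DifferentiableAt ℝ (PA ν) x := by
  rw [differentiableAt_pi]
  intro i
  fin_cases i <;> simp [PA] <;> fun_prop

theorem k_det (hlin : K_LIN) : K_DET := by
  intro ν hν hs hj
  have hdet : LinearMap.det ((fderiv ℝ (PA ν) (kv ν) : (Fin 6 → ℝ) →L[ℝ] (Fin 6 → ℝ)) :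
      (Fin 6 → ℝ) →ₗ[ℝ] (Fin 6 → ℝ)) = 0 := hj
  have hker := LinearMap.bot_lt_ker_of_det_eq_zero hdet
  obtain ⟨w, hw, hw0⟩ := (Submodule.ne_bot_iff _).1 hker.ne'
  apply hw0
  have hw' : fderiv ℝ (PA ν) (kv ν) w = 0 := hw
  have hline : HasDerivAt (fun s : ℝ ↦ kv ν + s • w) w 0 := by
    have h1 : HasDerivAt (fun s : ℝ ↦ s • w) ((1 : ℝ) • w) 0 := (hasDerivAt_id (0 : ℝ)).smul_const w
    simpa using h1.const_add (kv ν)
  have hP : HasFDerivAt (PA ν) (fderiv ℝ (PA ν) (kv ν)) (kv ν + (0 : ℝ) • w) := by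
    have := (pa_diff ν (kv ν)).hasFDerivAt
    simpa using this
  have h : HasDerivAt (fun s : ℝ ↦ PA ν (kv ν + s • w)) 0 0 := by
    have := hP.comp_hasDerivAt (0 : ℝ) hline
    rw [hw'] at this
    exact this
  obtain ⟨a, b, c, d, rfl⟩ : ∃ a b c d : ℝ, ν = ![a, b, c, d] :=
    ⟨ν 0, ν 1, ν 2, ν 3, by funext i; fin_cases i <;> rfl⟩
  have ha : 0 < a := hν 0
  have hb : 0 < b := hν 1
  have hc : 0 < c := hν 2
  have hd : 0 < d := hν 3
  have hs' : a + b + c + d = 1 := by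
    simpa [Fin.sum_univ_succ, add_assoc] using hs
  rw [hasDerivAt_pi] at h
  have h0 := (h 0).deriv
  have h1 := (h 1).deriv
  have h2 := (h 2).deriv
  have h3 := (h 3).deriv
  have h4 := (h 4).deriv
  have h5 := (h 5).deriv
  clear h hP hline hw' hw hker hdet hj
  simp [PA, kv] at h0 h1 h2 h3 h4 h5
  simp (disch := fun_prop) only [deriv_fun_add, deriv_fun_sub, deriv_fun_mul, deriv_fun_pow,
    deriv_const, deriv_id''] at h0 h1 h2 h3 h4 h5
  have hd' : a = 1 - b - c - d := by linarith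
  refine hlin a b c d w ha hb hc hd ?_ ?_ ?_ ?_ ?_ ?_
  · rw [hd'] at h0 ⊢
    linear_combination h0 / 2
  · rw [hd'] at h2 ⊢
    linear_combination h2 / 2
  · rw [hd'] at h5 ⊢
    linear_combination h5 / 2
  · rw [hd'] at h1 ⊢
    linear_combination h1 / 2
  · rw [hd'] at h4 ⊢
    linear_combination h4 / 2
  · rw [hd'] at h3 ⊢
    linear_combination h3 / 2

end Pool.Agent.Helper85.DG
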